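import Pool.Agent.Y152.RP.Main
import Pool.Agent.Y152.RP.Fam

/-!
# MP_e573c6_ag: one-parameter families of curves in products of modular curves: no atypical points on
all but finitely many members with parameters of bounded degree, with radical parameters, and with
roots of unity as parameters

The Shimura variety `Y(1)^n` is identified with `ℂ^n` by the elliptic modular function
`jj = j = E₄³ / Δ`. The Shimura varieties are the products of `n` modular curves of any levels, and
their images in `Y(1)^n`; `n` is arbitrary.

**Families.** Let `K ⊂ ℂ` be a countable field. We consider algebraic families `X_t` of curves in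
`Y(1)^n` with one parameter `t`, given by
* a family `B_t ⊆ P^N` of projective algebraic curves, defined by forms `G k` with coefficients in
  `K[t]`,
* quotients `f_i = A_i / B_i` of forms of the same degree `d_i` with coefficients in `K[t]`,
* functions `s_i` integral over `K[j]`, `R_i (s_i, j) = 0` with `R_i` monic in the first variable
  (level one: `R_i = S - J`, `s_i = j`; in general modular functions of any level without poles
  in the upper half plane), and polynomials `c_i ∈ K[t]`:
`X_t = {x | ∃ y ∈ B_t, ∃ s, ∀ i, R_i (s_i, x_i) = 0, c_i (t) s_i = A_i (y) / B_i (y)}`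
(`scaledImage`), the image of a family of curves in a product of modular curves.

The family degenerates at the rational values `t = α_1, …, α_M` of the parameter in the
following sense:
* no point of `B_{α_l}` lies on two of the divisors of the `f_i` (at `t = α_l`) (this is the condition
  `InGeneralPosition` for `m = 1`; it implies that `B_{α_l}` is at most a curve if `n ≥ 2` and the
  `f_i` are not constant on its components), and
* the `c_i` have zeros at `α_l`, of orders `e_{l i} > 0`, and these orders are independent:
  `q e_{l i} e_{l j} e_{l' i} e_{l' j}` is not a square for `l ≠ l'`, `i ≠ j`, `1 ≤ q ≤ T^8`, where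
  `T` bounds the degrees of the `R_i` (`T = 1` for level one).

**Theorem.** The set `X_t` has no point at all on special subvarieties of codimension at least two,
`atyp(X_t) = ∅`, for all but finitely many
1. algebraic numbers `t` of degree at most `d` over `ℚ`, if `M ≥ 4 + 2 d` and the `α_l` are distinct,
2. complex numbers `t` of which some power `t^N`, `N > 0`, is rational, if `M ≥ 6` and the `α_l`
   are nonzero and have distinct absolute values,
3. roots of unity `t`, if `M ≥ 4` and `|α_l| ≠ 0, 1` for all `l`.
The constant coordinates of the special subvarieties can be special points or integral over the ring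
generated by any given finite subset `Γ` of `K`.

In 2. and 3. the degree of `t` is arbitrary, and the number of the degenerate members does not
depend on it. This is the part on curves of our file `MP_d83ecd_ag.AlgebraicParameters` (which treats
subvarieties of all dimensions, with `n (n - 1) / 2 + 1` instead of `4`). No large Galois orbits
hypothesis is used: at a place of `ℂ` near to the degenerate member `α_l` all coordinates but one of a
point of `X_t` have poles of orders proportional to the `e_{l i}`, and the isogeny degrees between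
the coordinates would be determined, up to squares and bounded factors, by these orders at several
places.

**The arithmetic** (`Pool.Agent.Y152.RP.Main`). Let `a_1, a_2, a_3` be nonzero rational numbers with
distinct absolute values and `D` a number. For all but finitely many `t` in the division group of
`ℚ^×` the value of the minimal polynomial of `t` at one of the `a_i` has a prime factor larger than
`D` (that is, `t` is not `S`-integral relative to `a_1, a_2, a_3`); for all but
finitely many roots of unity `t` this holds for every rational `a ≠ 0, ±1`.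
-/

set_option autoImplicit false

namespace Pool.Agent.Results.MP_e573c6_ag.CurveFamilies

open MvPolynomial
open Pool.Agent.Y152.RP.Fam (SpecialVariety InGeneralPosition scaledImage IndependentExponents)

/-- `t` is algebraic over the rational numbers, of degree at most `d`. -/
def DegreeAtMost (d : ℕ) (t : ℂ) : Prop :=
  ∃ F : Polynomial ℤ, F ≠ 0 ∧ F.natDegree ≤ d ∧ Polynomial.aeval t F = 0

/-- Some power of `t` with positive exponent is a rational number. -/
def IsRadical (t : ℂ) : Prop := ∃ N : ℕ, 0 < N ∧ ∃ q : ℚ, t ^ N = (q : ℂ)

/-- `t` is a root of unity. -/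
def IsRootOfUnity (t : ℂ) : Prop := ∃ N : ℕ, 0 < N ∧ t ^ N = 1

/-- The points of `X` on special subvarieties of codimension at least two (with constant coordinates
which are special points or integral over `Γ`). -/
def atyp (Γ : Finset ℂ) {n : ℕ} (X : Set (Fin n → ℂ)) : Set (Fin n → ℂ) :=
  {x | x ∈ X ∧ ∃ (r : ℕ) (Z : SpecialVariety (algebraMap (Algebra.adjoin ℤ (Γ : Set ℂ)) ℂ) n r),
    r + 2 ≤ n ∧ x ∈ Z.locus}

/-- One-parameter families of curves which degenerate at sufficiently many rational parameters: all but
finitely many of the members with parameters of bounded degree (with radical parameters, with roots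
of unity as parameters) have no atypical points. -/
theorem result (K : Subfield ℂ) [Countable K] (κ : Type) [Finite κ] (N n M T : ℕ)
    (G : κ → MvPolynomial (Fin (N + 1)) (Polynomial K)) (hG : ∀ k, ∃ e, (G k).IsHomogeneous e)
    (A B : Fin n → MvPolynomial (Fin (N + 1)) (Polynomial K)) (δ : Fin n → ℕ)
    (hA : ∀ i, (A i).IsHomogeneous (δ i)) (hB : ∀ i, (B i).IsHomogeneous (δ i))
    (R : Fin n → Polynomial (Polynomial K)) (hR : ∀ i, (R i).Monic)
    (hT : ∀ i u w, ((R i).coeff u).coeff w ≠ 0 → u ≤ T ∧ w ≤ T)
    (c : Fin n → Polynomial K) (α : Fin M → ℚ)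
    (hind : IndependentExponents T fun l i => (c i).rootMultiplicity ((α l : ℚ) : K))
    (hpos : ∀ l, InGeneralPosition ((α l : ℚ) : ℂ) 1 G A B) (Γ : Finset ℂ)
    (hΓ : ∀ γ ∈ Γ, γ ∈ K) :
    (Function.Injective α → ∀ d : ℕ, 4 + 2 * d ≤ M →
      {t : ℂ | DegreeAtMost d t ∧ atyp Γ (scaledImage t G A B R c) ≠ ∅}.Finite) ∧
    ((∀ l, α l ≠ 0) → (∀ l l', l ≠ l' → |α l| ≠ |α l'|) → 6 ≤ M →
      {t : ℂ | IsRadical t ∧ atyp Γ (scaledImage t G A B R c) ≠ ∅}.Finite) ∧
    ((∀ l, α l ≠ 0 ∧ |α l| ≠ 1) → 4 ≤ M →
      {t : ℂ | IsRootOfUnity t ∧ atyp Γ (scaledImage t G A B R c) ≠ ∅}.Finite) := by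
  have hrad : ∀ t ∈ {t : ℂ | IsRadical t}, IsAlgebraic ℤ t := fun t ht =>
    Pool.Agent.Y152.RP.alg_of_rad ht
  have hun : ∀ t ∈ {t : ℂ | IsRootOfUnity t}, IsAlgebraic ℤ t := by
    rintro t ⟨N, hN, ht⟩
    exact Pool.Agent.Y152.RP.alg_of_rad ⟨N, hN, 1, by rw [ht, Rat.cast_one]⟩
  have hdeg : ∀ d, ∀ t ∈ {t : ℂ | DegreeAtMost d t}, IsAlgebraic ℤ t := by
    rintro d t ⟨F, hF0, -, hFt⟩
    exact ⟨F, hF0, hFt⟩
  have key : ∀ (P : ℂ → Prop), {t : ℂ | t ∈ {t | P t} ∧ ∃ (r : ℕ)
        (Z : SpecialVariety (algebraMap (Algebra.adjoin ℤ (Γ : Set ℂ)) ℂ) n r),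
        r + 2 ≤ n ∧ (scaledImage t G A B R c ∩ Z.locus).Nonempty}.Finite →
      {t : ℂ | P t ∧ atyp Γ (scaledImage t G A B R c) ≠ ∅}.Finite := by
    intro P hfin
    refine hfin.subset ?_
    rintro t ⟨ht, hne⟩
    obtain ⟨x, hx, r, Z, hr, hxZ⟩ := Set.nonempty_iff_ne_empty.2 hne
    exact ⟨ht, r, Z, hr, x, hx, hxZ⟩
  refine ⟨fun hinj d hM => key _ ?_, fun h0 hdist hM => key _ ?_, fun hne hM => key _ ?_⟩
  · exact (Pool.Agent.Y152.RP.Fam.family K κ N n 1 M T G hG A B δ hA hB R hR hT c α hind
      hpos Γ hΓ _ (hdeg d)).2 rfl (by omega) fun D =>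
        Pool.Agent.Y152.BD.finite_badD D d (by omega) α hinj
  · exact (Pool.Agent.Y152.RP.Fam.family K κ N n 1 M T G hG A B δ hA hB R hR hT c α hind
      hpos Γ hΓ _ hrad).2 rfl (by omega) fun D =>
        Pool.Agent.Y152.RP.arithMain D _ M (by omega) α h0 hdist
  · exact (Pool.Agent.Y152.RP.Fam.family K κ N n 1 M T G hG A B δ hA hB R hR hT c α hind
      hpos Γ hΓ _ hun).2 rfl hM fun D =>
        Pool.Agent.Y152.RP.unityMain hM α (fun l => (hne l).1) (fun l => (hne l).2) D

end Pool.Agent.Results.MP_e573c6_ag.CurveFamilies
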