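import Pool.Agent.Y92.ZH.Main2
import Pool.Agent.Y226.ZG.Main2

/-!
# MP_e573c6_ag: the Zilber-Pink conjecture for curves in products of arbitrary modular curves

**The Shimura variety.** Let `𝒳 = Y_1 × … × Y_n` be a product of modular curves of arbitrary levels
and genera, and let `s_i` be a nonconstant function on `Y_i`, defined over the algebraic numbers and
without poles in the upper half plane, that is, integral over `ℚ̄[j]`. Its minimal polynomial is a
polynomial `R_i (S, J)`, monic in `S`, with `R_i (s_i, j) = 0`. So `Y_i` is finite over the affine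
plane curve `R_i (s, x) = 0` (`x = j`), and this is finite over `Y(1) = ℂ`. (Level one: `s_i = j`,
`R_i = S - J`. If `Y_i` has genus zero and `s_i` is a Hauptmodul with pole at a cusp, then
`j = N_i (s_i) / D_i (s_i)` and `R_i` is the polynomial `N_i - J D_i` if it is normalised to be monic;
for example `s_i = λ`, the Legendre parameter.) We use no other property of the `R_i` than that they
are monic in `S`, not constant, and not divisible by polynomials in `S` alone, and we denote by `T` a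
bound for their degrees in `S` and in `J`.

The special subvarieties of `𝒳` are the components of the preimages of the special subvarieties
of `Y(1)^n = ℂ^n`. Those of dimension `r` are given by `H294ZP.SpecialDatum n r`: `Z.locus` is the set
of the points `x` with `x_i = j (τ_i)` (`τ_i` a fixed CM point) for the constant coordinates, and
`x_i = j (g_i z_k)` for the coordinates of class `k`, where `z_1, …, z_r` are free in the upper half
plane and `g_i` is a fixed integral matrix of positive determinant (`jj = j = E₄³ / Δ`).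

**The curves.** Let `V ⊆ ℂ^n` be an irreducible curve over the algebraic numbers, of any genus and
any degree, given by its prime ideal `I`, with nonconstant coordinates, in general position: for
`i ≠ j` the coordinates `y_i` and `y_j` satisfy on `V` an equation
`∑_{u ≤ a, v ≤ b} g_{uv} y_i ^ u y_j ^ v = 0` with `g_{00}, g_{a0}, g_{0b}, g_{ab} ≠ 0` (the zeros and
poles of `y_i` on the smooth projective model of `V` are different from those of `y_j`). For rational
`lam_i` and `mu_i` let `C ⊂ 𝒳` be the set of the points `P` such that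

  `(s_1 (P_1), …, s_n (P_n)) = (lam_1 y_1 + mu_1, …, lam_n y_n + mu_n)` for some `y ∈ V`.

It is finite over the set `preimage` of all pairs `(s, x)` with `s = (lam_i y_i + mu_i)_i`, `y ∈ V`,
and `R_i (s_i, x_i) = 0` for all `i`. All components of `C` are curves.

**Theorem.** For each `W` there is a number `D`, which depends only on `V`, the `R_i` and `W`, such
that the following holds for all rational `lam_i` and `mu_i` for which there are a prime number
`p > D` and `e > 0` with `v_p (lam_i) = - w_i e`, `1 ≤ w_i ≤ W`, `w_i e ≥ 2 T ^ 2`, and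
`v_p (mu_i) > v_p (lam_i)` for all `i` (for example `lam_i = m ^ (- 2 T ^ 2)` for an integer `m` which
has a prime factor larger than `D`, and `mu_i ∈ ℤ`):
1. there are only finitely many points of `C` on special subvarieties of codimension at least two,
   that is, `atyp (C)` is finite;
2. on every proper special subvariety of `𝒳` there are only finitely many points of `C`; so all
   components of `C` are Hodge generic (and `C` is not empty).
-/

namespace Pool.Agent.Results.MP_e573c6_ag.CurvesInModularProducts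

open H294ZP MvPolynomial

/-- The zero set `V ⊆ ℂ^n` of the ideal `I`. -/
def curve {n : ℕ} (I : Ideal (MvPolynomial (Fin n) (algebraicClosure ℚ ℂ))) : Set (Fin n → ℂ) :=
  {y | ∀ f ∈ I, aeval y f = 0}

/-- The value at `(s, x)` of the polynomial `R = ∑ r_u (J) S^u` in two variables `S` and `J`. -/
noncomputable def valueAt (R : Polynomial (Polynomial (algebraicClosure ℚ ℂ))) (s x : ℂ) : ℂ :=
  Polynomial.eval₂ (Polynomial.eval₂RingHom (algebraMap (algebraicClosure ℚ ℂ) ℂ) x) s R

/-- The points `(s, x)` over the image of `V` under `(y_i) ↦ (lam_i y_i + mu_i)`: `s` belongs to this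
image, and `R_i (s_i, x_i) = 0` for all `i`. -/
def preimage {n : ℕ} (I : Ideal (MvPolynomial (Fin n) (algebraicClosure ℚ ℂ)))
    (R : Fin n → Polynomial (Polynomial (algebraicClosure ℚ ℂ))) (lam mu : Fin n → ℚ) :
    Set ((Fin n → ℂ) × (Fin n → ℂ)) :=
  {q | (∃ y ∈ curve I, ∀ i, q.1 i = lam i * y i + mu i) ∧ ∀ i, valueAt (R i) (q.1 i) (q.2 i) = 0}

/-- The Zilber-Pink conjecture for curves in products of arbitrary modular curves which are
preimages of affine images of a curve in general position. -/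
theorem result {n : ℕ} (I : Ideal (MvPolynomial (Fin n) (algebraicClosure ℚ ℂ)))
    (hI : I.IsPrime) (hconst : ∀ (i : Fin n) (c : algebraicClosure ℚ ℂ), X i - C c ∉ I)
    (hgen : ∀ i j : Fin n, i ≠ j → ∃ (a b : ℕ) (g : ℕ → ℕ → algebraicClosure ℚ ℂ),
      g 0 0 ≠ 0 ∧ g a 0 ≠ 0 ∧ g 0 b ≠ 0 ∧ g a b ≠ 0 ∧
      ∑ u ∈ Finset.range (a + 1), ∑ v ∈ Finset.range (b + 1),
        C (g u v) * X i ^ u * X j ^ v ∈ I)
    (R : Fin n → Polynomial (Polynomial (algebraicClosure ℚ ℂ)))
    (hmonic : ∀ i, (R i).Monic) (hpos : ∀ i, 0 < (R i).natDegree)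
    (hfib : ∀ i (c : algebraicClosure ℚ ℂ), (R i).eval (Polynomial.C c) ≠ 0)
    (T : ℕ) (hT : ∀ i, (R i).natDegree ≤ T ∧ ∀ u, ((R i).coeff u).natDegree ≤ T) (W : ℕ) :
    ∃ D : ℕ, ∀ lam mu : Fin n → ℚ,
      (∃ (p e : ℕ) (w : Fin n → ℕ), p.Prime ∧ D < p ∧ 0 < e ∧ ∀ i, 0 < w i ∧ w i ≤ W ∧
        2 * T ^ 2 ≤ w i * e ∧ padicValRat p (lam i) = -((w i : ℤ) * e) ∧
        padicValRat p (lam i) < padicValRat p (mu i)) →
      {q | q ∈ preimage I R lam mu ∧
        ∃ (r : ℕ) (Z : SpecialDatum n r), r + 2 ≤ n ∧ q.2 ∈ Z.locus}.Finite ∧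
      ∀ (r : ℕ) (Z : SpecialDatum n r), r < n →
        {q | q ∈ preimage I R lam mu ∧ q.2 ∈ Z.locus}.Finite ∧
        ∃ q ∈ preimage I R lam mu, q.2 ∉ Z.locus := by
  classical
  rcases Nat.eq_zero_or_pos n with hn | hn
  · subst hn
    refine ⟨0, fun lam mu _ => ⟨Set.toFinite _, fun r Z hr => absurd hr (by omega)⟩⟩
  have hT0 : 0 < T := (hpos ⟨0, hn⟩).trans_le (hT ⟨0, hn⟩).1
  obtain ⟨D, hD⟩ := Pool.Agent.Y92.ZH.main_ZH I hI hconst (fun i j hij => by
    obtain ⟨a, b, g, h1, h2, h3, h4, h5⟩ := hgen i j hij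
    exact ⟨a, b, Pool.Agent.Y226.ZG.mkG a b g, Pool.Agent.Y226.ZG.mkG_cor h1 h2 h3 h4, by
      rw [Pool.Agent.Y226.ZG.E2_mkG]; exact h5⟩) hT0 R hT hmonic hpos hfib W
  refine ⟨D, fun lam mu h => ?_⟩
  obtain ⟨p, e, w, hp, hDp, he, hw⟩ := h
  obtain ⟨h1, h2⟩ := hD lam mu ⟨p, e, w, hp, hDp, he, fun i => by
    obtain ⟨a1, a2, a3, a4, a5⟩ := hw i
    exact ⟨a1, a2, by rw [← sq]; exact a3, a4, a5⟩⟩
  let Φ : (Fin n → ℂ) × (Fin n → ℂ) → (Fin n → ℂ) × (Fin n → ℂ) :=
    fun q => (fun i => lam i * q.1 i + mu i, q.2)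
  have hΦ : ∀ q ∈ preimage I R lam mu, ∃ q' ∈ Pool.Agent.Y92.ZH.CP I R lam mu, Φ q' = q := by
    rintro ⟨s, x⟩ ⟨⟨y, hy, hys⟩, hq⟩
    have hs : (fun i => (lam i : ℂ) * y i + mu i) = s := funext fun i => (hys i).symm
    exact ⟨(y, x), ⟨hy, fun i => by rw [← hys i]; exact hq i⟩, Prod.ext hs rfl⟩
  refine ⟨(h1.image Φ).subset ?_, fun r Z hr => ⟨((h2 r Z hr).1.image Φ).subset ?_, ?_⟩⟩
  · rintro q ⟨hq, r, Z, hr, hZ⟩
    obtain ⟨q', hq', rfl⟩ := hΦ q hq
    exact ⟨q', ⟨hq', r, Z, hr, hZ⟩, rfl⟩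
  · rintro q ⟨hq, hZ⟩
    obtain ⟨q', hq', rfl⟩ := hΦ q hq
    exact ⟨q', ⟨hq', hZ⟩, rfl⟩
  · obtain ⟨q, hq, hZ⟩ := (h2 r Z hr).2
    exact ⟨Φ q, ⟨⟨q.1, hq.1, fun _ => rfl⟩, fun i => hq.2 i⟩, hZ⟩

end Pool.Agent.Results.MP_e573c6_ag.CurvesInModularProducts
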