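import Pool.Agent.Y199.SG.ZPW

/-!
# MP_e573c6_ag: Zilber-Pink for all but finitely many members of families of curves in `Y(1)^n` over an
elliptic curve

The Shimura variety `Y(1)^n` is identified with `ℂ^n` by the elliptic modular function
`jj = j = E₄³ / Δ`.

**The base.** Let `a, b` be algebraic numbers with `4 a³ + 27 b² ≠ 0` and let `Curve a b` be the set of
the affine points `P = (x, y)` of the elliptic curve `y² = x³ + a x + b`. At a point `Q` of it the
function `loc Q`, which is `x - x(Q)` if `y(Q) ≠ 0` and `y` if `y(Q) = 0`, is a local parameter, and a
function `c ∈ ℂ[x, y]` has the order `e` at `Q` if `c = loc^e g / h` on the curve with polynomials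
`g, h` in `x, y` which do not vanish at `Q` and whose coefficients are algebraic over a given
countable field `K ⊂ ℂ` (`HasOrder`). Every function with coefficients algebraic over `K` which does
not vanish identically on the curve has an order at every algebraic point `Q`.

**Families.** We consider families of curves `X_P` in `Y(1)^n` over the elliptic curve, given by
* a family `B_t ⊆ P^N` of projective algebraic sets (curves), defined by forms `G k` with
  coefficients in `K[t]`, quotients `f_i = A_i / B_i` of forms of the same degree `d_i` with
  coefficients in `K[t]`, and a rational function `t = φ(P) = u(P) / v(P)` on the elliptic curve (so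
  `B_t` can be a fixed curve, or the pullback by `φ` of any one-parameter family),
* functions `s_i` integral over `K[j]`, `R_i (s_i, j) = 0` with `R_i` monic in the first variable
  (level one: `R_i = S - J`, `s_i = j`; in general modular functions of any level without poles
  in the upper half plane), and functions `c_i ∈ ℂ[x, y]` on the elliptic curve:
`X_P = {x | ∃ y ∈ B_t, ∃ s, ∀ i, R_i (s_i, x_i) = 0, c_i (P) s_i = A_i (y) / B_i (y), t = φ(P)}`
(`member`), the image of a family of curves in a product of modular curves of any levels. For
example: the translates `(c_1(P)⁻¹ y_1, …, c_n(P)⁻¹ y_n)`, `y ∈ V`, of a fixed affine curve `V` by the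
values of `n` functions on the elliptic curve.

Let `Q_1, …, Q_4` be points of the elliptic curve with algebraic coordinates, `v(Q_l) ≠ 0`. The family
degenerates at the `Q_l` in the following sense:
* no point of `B_t` lies on two of the divisors of the `f_i`, for `t = φ(Q_l)`, and
* the `c_i` have zeros at `Q_l`, of orders `e_li > 0`, and these orders are independent:
  `q e_li e_lj e_l'i e_l'j` is not a square for `l ≠ l'`, `i ≠ j`, `1 ≤ q ≤ T^8`, where `T` bounds the
  degrees of the `R_i` (`T = 1` for level one).

**Theorem.** For every number field `E` and for all but finitely many of the points `P` of the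
elliptic curve over `E` the set `X_P` does not meet any special subvariety of `Y(1)^n` of
codimension at least two, for any `n`. The constant coordinates of the special subvarieties can
be special points or integral over the ring generated by any given finite set `Γ` of numbers
algebraic over `K`.

In the results for one-parameter families over the projective line with parameters `t` of degree at
most `d` over `ℚ` (`CurveFamilies` of this problem) and in finitely generated fields
(`MP_d83ecd_ag.FinitelyGeneratedFields`) two or more further degenerate members are necessary, already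
for the parameters in one number field. The sister result
`MP_130685_nt.FamiliesOverEllipticCurves` concerns families of any dimension and needs
`n (n - 1) / 2 + 1` degenerate members; here four are sufficient for all `n`, and the conclusion is
that there is no point at all on special subvarieties of codimension at least two.

The proof combines the local criterion for curves (file `Y199/SG/ZPZ`, after helper910, helper152
and the starting files) with Siegel's theorem: all but finitely many points `P` over `E` are near to
`Q_l` at some place with a large residue characteristic, for all `l`, since otherwise `P - Q_l` is an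
integral point of the elliptic curve over a fixed ring of `S`-integers. Siegel's theorem over number
fields is proved in the file `Y199/SG/Siegel`.
-/

set_option autoImplicit false

namespace Pool.Agent.Results.MP_e573c6_ag.CurvesOverEllipticCurves

open MvPolynomial Pool.Agent.Y199.SG.ZPZ
open Pool.Agent.Y199.SG.ZPY (SpecialVariety evalAt OnB InGeneralPosition valueAt)

/-- **Zilber-Pink for families of curves in `Y(1)^n` over an elliptic curve**: all but finitely many of
the members over the points over a number field have no point on special subvarieties of codimension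
at least two. -/
theorem result (K : Subfield ℂ) [Countable K] (κ : Type) [Finite κ] (N n T : ℕ)
    (G : κ → MvPolynomial (Fin (N + 1)) (Polynomial K)) (hG : ∀ k, ∃ e, (G k).IsHomogeneous e)
    (A B : Fin n → MvPolynomial (Fin (N + 1)) (Polynomial K)) (δ : Fin n → ℕ)
    (hA : ∀ i, (A i).IsHomogeneous (δ i)) (hB : ∀ i, (B i).IsHomogeneous (δ i))
    (R : Fin n → Polynomial (Polynomial K)) (hR : ∀ i, (R i).Monic)
    (hT : ∀ i u w, ((R i).coeff u).coeff w ≠ 0 → u ≤ T ∧ w ≤ T)
    (a b : ℂ) (ha : IsAlgebraic ℚ a) (hb : IsAlgebraic ℚ b) (hab : 4 * a ^ 3 + 27 * b ^ 2 ≠ 0)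
    (u v : MvPolynomial (Fin 2) ℂ) (hu : ∀ d, IsAlgebraic K (u.coeff d))
    (hv : ∀ d, IsAlgebraic K (v.coeff d))
    (Q : Fin 4 → Fin 2 → ℂ) (hQ : ∀ l, Q l ∈ Curve a b) (hQa : ∀ l i, IsAlgebraic ℚ (Q l i))
    (hvQ : ∀ l, eval (Q l) v ≠ 0)
    (c : Fin n → MvPolynomial (Fin 2) ℂ) (e : Fin 4 → Fin n → ℕ)
    (he : ∀ l i, HasOrder K a b (Q l) (c i) (e l i)) (hind : IndependentOrders T e)
    (hpos : ∀ l, InGeneralPosition (value u v (Q l)) 1 G A B)
    (Γ : Finset ℂ) (hΓ : ∀ γ ∈ Γ, IsAlgebraic K γ) (E : IntermediateField ℚ ℂ)
    [FiniteDimensional ℚ E] :
    {P : Fin 2 → ℂ | P ∈ Curve a b ∧ (∀ i, P i ∈ E) ∧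
      ∃ (r : ℕ) (Z : SpecialVariety (algebraMap (Algebra.adjoin ℤ (Γ : Set ℂ)) ℂ) n r),
        r + 2 ≤ n ∧ (member (value u v P) (fun i => eval P (c i)) G A B R ∩
          Z.locus).Nonempty}.Finite := by
  obtain ⟨W, hW⟩ := core K κ N n 1 4 T G hG A B δ hA hB R hR hT a b
    ha.isIntegral.tower_top.isAlgebraic u v hu hv hb.isIntegral.tower_top.isAlgebraic Q hQ
    (fun l i => (hQa l i).isIntegral.tower_top.isAlgebraic) hvQ c e he hind hpos Γ hΓ
  refine (near_all a b ha hb hab Q hQ hQa W E).subset ?_
  rintro P ⟨hP, hPE, hbad⟩
  refine ⟨hP, hPE, fun hnear => ?_⟩
  exact (hW P hP (fun i => alg_of_mem K E _ (hPE i)) hnear).2 rfl le_rfl hbad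

end Pool.Agent.Results.MP_e573c6_ag.CurvesOverEllipticCurves
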