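import Pool.Agent.Y92.ZX.AAll

/-!
# MP_e573c6_ag: Zilber-Pink for one hundred percent of the curves of one-parameter families in `Y(1)^n`

`Y(1)^n` is identified with `ℂ^n` by the elliptic modular function `jj = j = E₄³ / Δ`. A special
subvariety of `Y(1)^n` of dimension `r` is given by a `SpecialVariety`: its points are the points
`x` with `x_i = const_i` for the constant coordinates, and `x_i = j (g_i z_l)` for the coordinates of
class `l`, `z_1, …, z_r` free in the upper half plane and `g_i` a fixed integral matrix of positive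
determinant. In the definition of special subvarieties the constants are values of `j` at CM points.
We allow also all constants which are integral over the ring generated by a given finite set `Γ` of
algebraic numbers.

**Families of curves.** Let `F_τ` be finitely many forms in the homogeneous coordinates
`(X_1, Z_1), …, (X_n, Z_n)` of `(P¹)^n` (the variables are `(i, false) = X_i` and `(i, true) = Z_i`,
and `x_i = X_i / Z_i`), whose coefficients are polynomials in one parameter `s` over the field of the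
algebraic numbers. They define an algebraic family of subschemes `V_s` of `(P¹)^n`. We assume
(`GoodOrigin F`) that

* `V_0` is integral: the ideals of `V_0` in the affine charts `Z_1 = … = Z_n = 1` and `X_a = 1`,
  `Z_i = 1` for `i ≠ a` are prime ideals; the coordinates `x_i` are not constant on `V_0`;
* for `i ≠ j` the ideal generated by the `F_τ` contains a form
  `∑_{u ≤ a, v ≤ b} g_{uv} X_i ^ u Z_i ^ (a - u) X_j ^ v Z_j ^ (b - v)`, where the `g_{uv}` are
  polynomials in `s` with `g_{00}, g_{a0}, g_{0b}, g_{ab} ≠ 0` at `s = 0`, and where the form for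
  `s = 0` is not divisible by a form `X_i - c Z_i`. So the zeros and poles of `x_i` on `V_0` are
  different from those of `x_j`, and `V_0` is a curve (for `n ≥ 2`) which is covered by the charts.

Let `lam_1, …, lam_n` be nonconstant polynomials over the algebraic numbers, of arbitrary degrees. Let
`X_t ⊂ Y(1)^n` be the set of all `(lam_1 (t) y_1, …, lam_n (t) y_n)` with `y ∈ V_{1/t} ∩ ℂ^n`. So
`X_t` is a one-parameter family of curves which tends to the cusp `(∞, …, ∞)` for `t → ∞`, and the
shape of the curve at infinity is `V_0`. The family is not assumed to be isotrivial: the members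
`X_t` may be singular or reducible curves of any genus with varying moduli, or empty for some `t`.
For example (`n = 2`), `X_t` may be the family of the plane curves

  `∑_{u ≤ a, v ≤ b} g_{uv} (1/t) t ^ (- u - v) x_1 ^ u x_2 ^ v = 0`, `g_{uv}` arbitrary polynomials with
  `g_{00}, g_{a0}, g_{0b}, g_{ab} ≠ 0` at `0`, such that the curve `∑ g_{uv} (0) y_1 ^ u y_2 ^ v = 0` is
  irreducible,

and in general the affine images `lam (t) V + mu (t)` of a fixed curve in general position
(`deg mu_i < deg lam_i`), and all deformations of them by terms which vanish at `t = ∞`.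

Let `δ ≥ 1`. The algebraic numbers `t` of degree `δ` are the roots of the polynomials
`a_0 + a_1 T + … + a_δ T^δ` with integral coefficients which have such a root.

**Theorem.** For all `δ ≥ 1` and `ε > 0` there is `H₀` such that for all `H ≥ H₀` and for all vectors
`a` of integers `|a_k| ≤ H`, with at most `ε (2 H + 1)^(δ + 1)` exceptions, the following is true for
each algebraic number `t` of degree `δ` with `a_0 + a_1 t + … + a_δ t^δ = 0`:

* there are only finitely many points of `X_t` on special subvarieties of codimension at least two,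
* each proper special subvariety of `Y(1)^n` contains only finitely many points of `X_t`.

So the Zilber-Pink conjecture holds for `X_t` for one hundred percent of the algebraic numbers `t` of
any given degree, ordered by height.
-/

namespace Pool.Agent.Results.MP_e573c6_ag.FamiliesAlmostAllParameters

open H294ZP UpperHalfPlane

/-- A special subvariety of dimension `r` of `Y(1)^n`. The constant coordinates are those with
`cls i = none`. The allowed constants are the singular moduli and the numbers which are integral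
over the ring generated by `Γ`. -/
structure SpecialVariety (Γ : Set ℂ) (n r : ℕ) where
  cls : Fin n → Option (Fin r)
  surj : ∀ l : Fin r, ∃ i, cls i = some l
  mat : Fin n → Matrix (Fin 2) (Fin 2) ℤ
  det_pos : ∀ i, 0 < (mat i).det
  const : Fin n → ℂ
  allowed : ∀ i, (∃ τ : ℍ, IsCM τ ∧ const i = jj τ) ∨ IsIntegral (Algebra.adjoin ℤ Γ) (const i)

/-- The points of a special subvariety of `Y(1)^n`. -/
def SpecialVariety.locus {Γ : Set ℂ} {n r : ℕ} (Z : SpecialVariety Γ n r) : Set (Fin n → ℂ) :=
  {x | ∃ z : Fin r → ℍ, ∀ i, (Z.cls i = none → x i = Z.const i) ∧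
    ∀ l, Z.cls i = some l → ∃ w : ℍ,
      (w : ℂ) * (Z.mat i 1 0 * z l + Z.mat i 1 1) = Z.mat i 0 0 * z l + Z.mat i 0 1 ∧
      x i = jj w}

/-- The homogeneous coordinates of the point with affine coordinates `y` in the chart `c` of
`(P¹)^n`. In the chart `none` they are `X_i = y_i`, `Z_i = 1` for all `i`, in the chart `some a`
they are `X_a = 1`, `Z_a = y_a`, and `X_i = y_i`, `Z_i = 1` for `i ≠ a`. -/
def coord {A : Type} [CommRing A] {n : ℕ} (c : Option (Fin n)) (y : Fin n → A)
    (q : Fin n × Bool) : A :=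
  if c = some q.1 then (if q.2 then y q.1 else 1) else (if q.2 then 1 else y q.1)

/-- `F` is homogeneous in each pair of variables `(X_i, Z_i) = ((i, false), (i, true))`. -/
def Multihomogeneous {A : Type} [CommRing A] {n : ℕ} (F : MvPolynomial (Fin n × Bool) A) : Prop :=
  ∃ δ : Fin n → ℕ, ∀ m ∈ F.support, ∀ i, m (i, false) + m (i, true) = δ i

/-- The form `∑ g_{uv} X_i ^ u Z_i ^ (a - u) X_j ^ v Z_j ^ (b - v)`. -/
noncomputable def pairForm {A : Type} [CommRing A] {n : ℕ} (i j : Fin n) (a b : ℕ)
    (g : ℕ → ℕ → A) : MvPolynomial (Fin n × Bool) A :=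
  ∑ u ∈ Finset.range (a + 1), ∑ v ∈ Finset.range (b + 1),
    MvPolynomial.C (g u v) * MvPolynomial.X (i, false) ^ u * MvPolynomial.X (i, true) ^ (a - u) *
      MvPolynomial.X (j, false) ^ v * MvPolynomial.X (j, true) ^ (b - v)

/-- The ideal of `V_0` in the chart `c`. -/
noncomputable def chartIdeal {n : ℕ} {κ : Type}
    (F : κ → MvPolynomial (Fin n × Bool) (Polynomial (algebraicClosure ℚ ℂ)))
    (c : Option (Fin n)) : Ideal (MvPolynomial (Fin n) (algebraicClosure ℚ ℂ)) :=
  Ideal.span (Set.range fun τ => MvPolynomial.eval₂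
    (MvPolynomial.C.comp (Polynomial.evalRingHom (0 : algebraicClosure ℚ ℂ)))
    (coord c MvPolynomial.X) (F τ))

/-- The family is given by forms, and its member `V_0` is integral and in general position. -/
structure GoodOrigin {n : ℕ} {κ : Type}
    (F : κ → MvPolynomial (Fin n × Bool) (Polynomial (algebraicClosure ℚ ℂ))) : Prop where
  form : ∀ τ, Multihomogeneous (F τ)
  prime : ∀ c, (chartIdeal F c).IsPrime
  nonconstant : ∀ (i : Fin n) (c : algebraicClosure ℚ ℂ),
    MvPolynomial.X i - MvPolynomial.C c ∉ chartIdeal F none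
  general : ∀ i j : Fin n, i ≠ j → ∃ (a b : ℕ) (g : ℕ → ℕ → Polynomial (algebraicClosure ℚ ℂ)),
    (g 0 0).eval 0 ≠ 0 ∧ (g a 0).eval 0 ≠ 0 ∧ (g 0 b).eval 0 ≠ 0 ∧ (g a b).eval 0 ≠ 0 ∧
    (∀ c : algebraicClosure ℚ ℂ, ∃ v ≤ b,
      ∑ u ∈ Finset.range (a + 1), (g u v).eval 0 * c ^ u ≠ 0) ∧
    pairForm i j a b g ∈ Ideal.span (Set.range F)

/-- The member `X_t` of the family: all `(lam_1 (t) y_1, …, lam_n (t) y_n)`, `y` in
`V_{1/t} ∩ ℂ^n`. -/
def member {n : ℕ} {κ : Type}
    (F : κ → MvPolynomial (Fin n × Bool) (Polynomial (algebraicClosure ℚ ℂ)))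
    (lam : Fin n → Polynomial (algebraicClosure ℚ ℂ)) (t : ℂ) : Set (Fin n → ℂ) :=
  {x | ∃ y : Fin n → ℂ, (∀ τ, MvPolynomial.eval₂
    (Polynomial.eval₂RingHom (algebraMap (algebraicClosure ℚ ℂ) ℂ) t⁻¹) (coord none y) (F τ) = 0) ∧
    ∀ i, x i = Polynomial.aeval t (lam i) * y i}

/-- There are only finitely many points of `S` on special subvarieties of codimension at least two,
and each proper special subvariety contains only finitely many points of `S`. -/
def ZilberPink (Γ : Set ℂ) {n : ℕ} (S : Set (Fin n → ℂ)) : Prop :=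
  {x | x ∈ S ∧ ∃ (r : ℕ) (Z : SpecialVariety Γ n r), r + 2 ≤ n ∧ x ∈ Z.locus}.Finite ∧
  ∀ (r : ℕ) (Z : SpecialVariety Γ n r), r < n → {x | x ∈ S ∧ x ∈ Z.locus}.Finite

/-- Special subvarieties in the form used in the proof. -/
def SpecialVariety.toSV {Γ : Set ℂ} {n r : ℕ} (Z : SpecialVariety Γ n r) :
    Pool.Agent.Y226.ZM.SV Γ n r where
  cls := Z.cls
  mat := Z.mat
  det_pos := Z.det_pos
  const := Z.const
  int := fun i => by
    rcases Z.allowed i with ⟨τ, hτ, h⟩ | h
    · rw [h]
      exact (singular_modulus_integral τ hτ).tower_top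
    · exact h

/-- The Zilber-Pink conjecture for one hundred percent of the members of one-parameter families of
curves in `Y(1)^n` which tend to the cusp in general position. -/
theorem result {n : ℕ} {κ : Type} [Finite κ]
    (F : κ → MvPolynomial (Fin n × Bool) (Polynomial (algebraicClosure ℚ ℂ))) (hF : GoodOrigin F)
    (lam : Fin n → Polynomial (algebraicClosure ℚ ℂ)) (hlam : ∀ i, 0 < (lam i).natDegree)
    (Γ : Finset ℂ) (hΓ : ∀ γ ∈ Γ, IsAlgebraic ℚ γ) (δ : ℕ) (hδ : 0 < δ) (ε : ℝ) (hε : 0 < ε) :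
    ∃ H₀ : ℕ, ∀ H : ℕ, H₀ ≤ H → (1 - ε) * (2 * H + 1) ^ (δ + 1) ≤
      ({a : Fin (δ + 1) → ℤ | (∀ k, |a k| ≤ H) ∧ ∀ t : ℂ, (minpoly ℚ t).natDegree = δ →
        ∑ k : Fin (δ + 1), (a k : ℂ) * t ^ (k : ℕ) = 0 →
          ZilberPink (Γ : Set ℂ) (member F lam t)}.ncard : ℝ) := by
  classical
  have hgen : ∀ q : Fin n × Fin n, ∃ (a b : ℕ)
      (g : ℕ → ℕ → Polynomial (algebraicClosure ℚ ℂ)), q.1 ≠ q.2 →
      (g 0 0).eval 0 ≠ 0 ∧ (g a 0).eval 0 ≠ 0 ∧ (g 0 b).eval 0 ≠ 0 ∧ (g a b).eval 0 ≠ 0 ∧
      (∀ c : algebraicClosure ℚ ℂ, ∃ v ≤ b,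
        ∑ u ∈ Finset.range (a + 1), (g u v).eval 0 * c ^ u ≠ 0) ∧
      pairForm q.1 q.2 a b g ∈ Ideal.span (Set.range F) := by
    intro q
    by_cases h : q.1 = q.2
    · exact ⟨0, 0, 0, fun h' => absurd h h'⟩
    · obtain ⟨a, b, g, h1⟩ := hF.general q.1 q.2 h
      exact ⟨a, b, g, fun _ => h1⟩
  choose a b g hg using hgen
  obtain ⟨H₀, h⟩ := Pool.Agent.Y92.ZX.fam_density_all n κ (∑ q, (a q + b q)) F
    ⟨hF.form, hF.prime, hF.nonconstant, fun i j hij => by
      obtain ⟨h1, h2, h3, h4, h5, h6⟩ := hg (i, j) hij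
      have h7 : a (i, j) + b (i, j) ≤ ∑ q, (a q + b q) :=
        Finset.single_le_sum (f := fun q => a q + b q) (fun _ _ => Nat.zero_le _)
          (Finset.mem_univ (i, j))
      exact ⟨a (i, j), b (i, j), g (i, j), by omega, by omega, h1, h2, h3, h4, h5, h6⟩⟩
    lam hlam Γ hΓ δ hδ ε hε
  refine ⟨H₀, fun H hH => (h H hH).trans (Nat.cast_le.2 (Set.ncard_le_ncard ?_ ?_))⟩
  · rintro a ⟨h1, h2⟩
    refine ⟨h1, fun t ht hr => ?_⟩
    obtain ⟨h3, h4⟩ := h2 t ht hr
    refine ⟨h3.subset ?_, fun r Z hr => (h4 r Z.toSV hr).subset ?_⟩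
    · rintro x ⟨⟨y, hy, hx⟩, r, Z, hr, hZ⟩
      exact ⟨⟨y, hy, hx⟩, r, Z.toSV, hr, hZ⟩
    · rintro x ⟨⟨y, hy, hx⟩, hZ⟩
      exact ⟨⟨y, hy, hx⟩, hZ⟩
  · refine (Finset.finite_toSet (Fintype.piFinset fun _ : Fin (δ + 1) =>
      Finset.Icc (-(H : ℤ)) H)).subset ?_
    rintro a ⟨ha, -⟩
    rw [Finset.mem_coe, Fintype.mem_piFinset]
    exact fun k => Finset.mem_Icc.2 (abs_le.1 (ha k))

end Pool.Agent.Results.MP_e573c6_ag.FamiliesAlmostAllParameters
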